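import Pool.Agent.H70.K2.AVG
import Pool.Agent.H5.K2.CLU

/-!
# OC: the cost of pairs and tuples of times

`lam` is the line, `t` the time, `c` a cell of the time. A new time is drawn independently given
the line and the cell of one of the old times. If the time has nearly maximal entropy given the
line and the cell, then the tuple of the times carries little information on the line. So
everything which is a function of the line and is nearly independent of the position at one exact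
time stays nearly independent of the position and of all the times of the tuple.
-/

set_option autoImplicit false

namespace Pool.OC

open Finset Real
open Pool.Agent.H49.Ent Pool.Agent.H32.Dense Pool.STK Pool.KAF Pool.KVA

section Calculus

variable {Ω : Type} [Fintype Ω] {S T U V W Λ : Type} {p : Ω → ℝ}

theorem mi_comm (X : Ω → S) (Y : Ω → T) (b : Ω → U) (hp : ∀ ω, 0 ≤ p ω) :
    MI p X Y b = MI p Y X b := by
  unfold MI
  have : CH p (fun ω => (X ω, Y ω)) b = CH p (fun ω => (Y ω, X ω)) b := by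
    refine CH_congr hp ?_ ?_ (fun _ _ _ _ h => h) (fun _ _ _ _ h => h) <;>
      intro ω ω' _ _ h <;> simp only [Prod.mk.injEq] at h ⊢ <;> tauto
  rw [this]
  ring

/-- The dependence on a pair. -/
theorem mi_chain (hp : ∀ ω, 0 ≤ p ω) (X : Ω → S) (Y : Ω → T) (Z : Ω → V) (b : Ω → U) :
    MI p X (fun ω => (Y ω, Z ω)) b = MI p X Y b + MI p X Z (fun ω => (Y ω, b ω)) := by
  rw [CLU.MI_eq hp, CLU.MI_eq hp, CLU.MI_eq hp]
  have : CH p X (fun ω => ((Y ω, Z ω), b ω)) = CH p X (fun ω => (Z ω, (Y ω, b ω))) := by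
    refine CH_congr hp ?_ ?_ ?_ ?_ <;>
      intro ω ω' _ _ h <;> simp only [Prod.mk.injEq] at h ⊢ <;> tauto
  rw [this]
  ring

theorem mi_le_ch (hp : IsLaw p) (X : Ω → S) (Y : Ω → T) (b : Ω → U) :
    MI p X Y b ≤ CH p X b := by
  rw [CLU.MI_eq hp.nonneg]
  have := CH_nonneg hp.nonneg X (fun ω => (Y ω, b ω))
  linarith

theorem ch_le_H (hp : IsLaw p) (X : Ω → S) (b : Ω → U) : CH p X b ≤ H p X := by
  have h1 := subadd hp.nonneg hp.sum_one (X := X) (Y := b) (W := fun ω => (X ω, b ω))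
    (fun _ _ _ _ h => h)
  unfold CH
  linarith

/-- Change of the context to an equivalent one, and functions of both variables. -/
theorem mi_mono_left (hp : ∀ ω, 0 ≤ p ω) (X : Ω → S) (X' : Ω → V) (Y : Ω → T) (b : Ω → U)
    (h : Det p (fun ω => (X ω, b ω)) X') : MI p X' Y b ≤ MI p X Y b := by
  rw [mi_comm X' Y b hp, mi_comm X Y b hp]
  exact CLU.MI_mono hp Y X X' b h

/-- If `X` and `b` determine `X'` and `b'`, `b'` determines `b`: dependence in a finer context
made of a part of the second variable. -/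
theorem mi_shift (hp : ∀ ω, 0 ≤ p ω) (X : Ω → S) (Y : Ω → T) (Y' : Ω → V) (b : Ω → U)
    (b' : Ω → W) (h1 : Det p (fun ω => (Y ω, b ω)) (fun ω => (Y' ω, b' ω))) (h2 : Det p b' b) :
    MI p X Y' b' ≤ MI p X Y b := by
  rw [CLU.MI_eq hp, CLU.MI_eq hp]
  have h3 := CH_mono_cond hp (X := X) (W' := b') (W := b) h2
  have h4 := CH_mono_cond hp (X := X) (W' := fun ω => (Y ω, b ω))
    (W := fun ω => (Y' ω, b' ω)) h1
  linarith

theorem marg_mi {Ω' : Type} [Fintype Ω'] {q : Ω' → ℝ} {pr : Ω' → Ω} (h : Marg q p pr)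
    (X : Ω → S) (Y : Ω → T) (b : Ω → U) :
    MI q (fun w => X (pr w)) (fun w => Y (pr w)) (fun w => b (pr w)) = MI p X Y b := by
  unfold MI
  rw [h.CH X b, h.CH Y b, ← h.CH (fun ω => (X ω, Y ω)) b]

/-- **The position at one time against the line data and the other times.**
`D` bounds the information of the times on the line. -/
theorem cost_nu (hp : IsLaw p) (l : Ω → Λ) (T₀ : Ω → T) (nu : Ω → S) (V₀ : Ω → V) (m : Ω → U)
    (x : Ω → W) (hnu : Det p (fun ω => (l ω, T₀ ω)) nu) (hV : Det p l V₀) (hm : Det p l m)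
    (b D : ℝ) (hb : MI p nu V₀ T₀ ≤ b) (hD : MI p l x T₀ ≤ D) :
    MI p nu (fun ω => ((V₀ ω, m ω), x ω)) T₀ ≤ b + H p m + D := by
  have hp0 := hp.nonneg
  rw [mi_chain hp0, mi_chain hp0]
  have h1 : MI p nu m (fun ω => (V₀ ω, T₀ ω)) ≤ H p m := by
    rw [mi_comm _ _ _ hp0]
    exact (mi_le_ch hp _ _ _).trans (ch_le_H hp _ _)
  have h2 : MI p nu x (fun ω => ((V₀ ω, m ω), T₀ ω)) ≤ MI p l x T₀ := by
    rw [mi_comm _ _ _ hp0, mi_comm l x T₀ hp0]
    refine mi_shift hp0 x l nu T₀ _ ?_ (fun _ _ _ _ h => (Prod.ext_iff.mp h).2)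
    intro ω ω' a c h
    have e1 : l ω = l ω' := (Prod.ext_iff.mp h).1
    have e2 : T₀ ω = T₀ ω' := (Prod.ext_iff.mp h).2
    have e3 := hnu ω ω' a c h
    have e4 := hV ω ω' a c e1
    have e5 := hm ω ω' a c e1
    simp only [e2, e3, e4, e5]
  linarith

/-- **The line data against the times and the position**, given a part `x₀` of the times. -/
theorem cost_line (hp : IsLaw p) (l : Ω → Λ) (T₀ : Ω → T) (nu : Ω → S) (V₀ : Ω → V) (m : Ω → U)
    {X₀ : Type} (x : Ω → W) (x₀ : Ω → X₀) (hnu : Det p (fun ω => (l ω, T₀ ω)) nu)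
    (hV : Det p l V₀) (hm : Det p l m) (hx₀ : Det p x x₀) (hT : Det p x T₀)
    (b D D' : ℝ) (hb : MI p nu V₀ T₀ ≤ b) (hD : MI p l x T₀ ≤ D) (hD' : MI p l x x₀ ≤ D') :
    MI p (fun ω => (V₀ ω, m ω)) (fun ω => (x ω, nu ω)) x₀ ≤ b + H p m + D + D' := by
  have hp0 := hp.nonneg
  rw [mi_chain hp0]
  have h1 : MI p (fun ω => (V₀ ω, m ω)) x x₀ ≤ D' := by
    refine (mi_mono_left hp0 l _ x x₀ ?_).trans hD'
    intro ω ω' a c h
    have e1 : l ω = l ω' := (Prod.ext_iff.mp h).1
    exact Prod.ext (hV ω ω' a c e1) (hm ω ω' a c e1)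
  have h2 : MI p (fun ω => (V₀ ω, m ω)) nu (fun ω => (x ω, x₀ ω)) ≤ b + H p m + D := by
    refine le_trans ?_ (cost_nu hp l T₀ nu V₀ m x hnu hV hm b D hb hD)
    rw [mi_comm _ _ _ hp0]
    refine mi_shift hp0 nu _ _ T₀ _ ?_ ?_
    · intro ω ω' a c h
      simp only [Prod.mk.injEq] at h ⊢
      obtain ⟨⟨⟨h1, h2⟩, h3⟩, h4⟩ := h
      exact ⟨⟨h1, h2⟩, h3, hx₀ ω ω' a c h3⟩
    · intro ω ω' a c h
      exact hT ω ω' a c (Prod.ext_iff.mp h).1
  linarith

/-- The total cost bounds the cost in every context made of times. -/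
theorem cost_sub (hp : ∀ ω, 0 ≤ p ω) (l : Ω → Λ) (x : Ω → W) (x₀ : Ω → U)
    (h : Det p x x₀) : MI p l x x₀ ≤ MI p l x (fun _ => ()) := by
  refine mi_shift hp l x x _ _ ?_ (fun _ _ _ _ _ => rfl)
  intro ω ω' a c h1
  have e1 : x ω = x ω' := (Prod.ext_iff.mp h1).1
  exact Prod.ext e1 (h ω ω' a c e1)

end Calculus

section Times

variable {Ω W : Type} [Fintype Ω] [Fintype W] {Λ τ γ X Z : Type} {p : Ω → ℝ} {q : W → ℝ}

/-- The line and the cell of the time. -/
def kap (lam : Ω → Λ) (t : Ω → τ) (c : τ → γ) (ω : Ω) : Λ × γ := (lam ω, c (t ω))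

/-- The law of the tuples: a new place, independent given the line and the cell of the time of
the place `pr w`. -/
noncomputable def addT (q : W → ℝ) (p : Ω → ℝ) (lam : Ω → Λ) (t : Ω → τ) (c : τ → γ)
    (pr : W → Ω) : W × Ω → ℝ :=
  glue q p (fun w => kap lam t c (pr w)) (kap lam t c)

/-- `t` has at most `n` values in every cell. -/
def CellCard (p : Ω → ℝ) (t : Ω → τ) (c : τ → γ) (n : ℕ) : Prop :=
  ∀ z : γ, ∃ F : Finset τ, F.card ≤ n ∧ ∀ ω, 0 < p ω → c (t ω) = z → t ω ∈ F

theorem addT_law {lam : Ω → Λ} {t : Ω → τ} {c : τ → γ} {pr : W → Ω} (hM : Marg q p pr) :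
    ∀ z, law q (fun w => kap lam t c (pr w)) z = law p (kap lam t c) z :=
  fun z => hM.law (kap lam t c) z

theorem addT_isLaw (hq : IsLaw q) (hp : IsLaw p) {lam : Ω → Λ} {t : Ω → τ} {c : τ → γ}
    {pr : W → Ω} (hM : Marg q p pr) : IsLaw (addT q p lam t c pr) := by
  refine ⟨fun w => glue_nonneg hq.nonneg hp.nonneg w, ?_⟩
  unfold addT
  rw [sum_glue hq.nonneg (addT_law hM)]
  exact hq.sum_one

theorem addT_fst (hq : IsLaw q) {lam : Ω → Λ} {t : Ω → τ} {c : τ → γ}
    {pr : W → Ω} (hM : Marg q p pr) : Marg (addT q p lam t c pr) q (fun w => w.1) :=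
  marg_fst hq.nonneg (addT_law hM)

theorem addT_snd (hp : IsLaw p) {lam : Ω → Λ} {t : Ω → τ} {c : τ → γ}
    {pr : W → Ω} (hM : Marg q p pr) : Marg (addT q p lam t c pr) p (fun w => w.2) :=
  marg_snd hp.nonneg (addT_law hM)

theorem addT_pos (hq : IsLaw q) (hp : IsLaw p) {lam : Ω → Λ} {t : Ω → τ} {c : τ → γ}
    {pr : W → Ω} {w : W × Ω} (h : 0 < addT q p lam t c pr w) :
    0 < q w.1 ∧ 0 < p w.2 ∧ lam (pr w.1) = lam w.2 ∧ c (t (pr w.1)) = c (t w.2) := by
  obtain ⟨h1, h2, h3⟩ := (glue_pos_iff hq.nonneg hp.nonneg w).mp h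
  have h4 := Prod.ext_iff.mp h3
  exact ⟨h1, h2, h4.1, h4.2⟩

/-- The entropy of a variable with values in a finite set depending on the context. -/
theorem ch_le_log_card' {Ω S T : Type} [Fintype Ω] {p : Ω → ℝ} (hp : IsLaw p) (X : Ω → S)
    (Y : Ω → T) (n : ℕ) (h : ∀ z, ∃ F : Finset S, F.card ≤ n ∧
      ∀ ω, 0 < p ω → Y ω = z → X ω ∈ F) : CH p X Y ≤ Real.log n := by
  classical
  rw [CH_eq_sum hp.nonneg]
  have h1 : ∀ y ∈ univ.image Y, law p Y y * H (cond p Y y) X ≤ law p Y y * Real.log n := by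
    intro y _
    rcases (law_nonneg hp.nonneg Y y).eq_or_lt with h0 | h0
    · rw [← h0, zero_mul, zero_mul]
    · refine mul_le_mul_of_nonneg_left ?_ h0.le
      obtain ⟨F, hF, hX⟩ := h y
      have h2 : H (cond p Y y) X ≤ Real.log F.card := by
        refine H_le_log_card (cond_nonneg hp.nonneg Y y) (sum_cond p Y h0.ne') X (F := F) ?_
        intro ω hω
        obtain ⟨a, b⟩ := (cond_pos_iff hp.nonneg Y y ω).mp hω
        exact hX ω a b
      refine h2.trans ?_
      have h3 : 0 < F.card := by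
        obtain ⟨ω, hω⟩ : ∃ ω, 0 < p ω ∧ Y ω = y := by
          by_contra hcon
          push Not at hcon
          have : law p Y y = 0 := by
            unfold law
            refine Finset.sum_eq_zero fun ω _ => ?_
            split_ifs with h5
            · rcases (hp.nonneg ω).eq_or_lt with h6 | h6
              · exact h6.symm
              · exact absurd h5 (hcon ω h6)
            · rfl
          exact h0.ne' this
        exact Finset.card_pos.2 ⟨X ω, hX ω hω.1 hω.2⟩
      exact Real.log_le_log (by exact_mod_cast h3) (by exact_mod_cast hF)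
  refine (Finset.sum_le_sum h1).trans (le_of_eq ?_)
  rw [← Finset.sum_mul, sum_law, hp.sum_one, one_mul]

/-- **The cost of one more time.** -/
theorem cost_add (hq : IsLaw q) (hp : IsLaw p) (lam : Ω → Λ) (t : Ω → τ) (c : τ → γ)
    (pr : W → Ω) (hM : Marg q p pr) (n : ℕ) (hn : CellCard p t c n) (a : ℝ)
    (ha : Real.log n - a ≤ CH p t (kap lam t c)) (x : W → X) (z : W → Z)
    (hx : Det q x (fun w => c (t (pr w)))) :
    MI (addT q p lam t c pr) (fun w => lam (pr w.1)) (fun w => (x w.1, t w.2))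
      (fun w => z w.1) ≤ MI q (fun w => lam (pr w)) x z + a := by
  set g := addT q p lam t c pr with hg
  have hgl : IsLaw g := addT_isLaw hq hp hM
  have hg0 := hgl.nonneg
  have hf : Marg g q (fun w => w.1) := addT_fst hq hM
  rw [mi_chain hg0]
  have h1 : MI g (fun w => lam (pr w.1)) (fun w => x w.1) (fun w => z w.1) =
      MI q (fun w => lam (pr w)) x z :=
    marg_mi hf (fun w => lam (pr w)) x z
  have h2 : MI g (fun w => lam (pr w.1)) (fun w => t w.2) (fun w => (x w.1, z w.1)) ≤ a := by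
    rw [mi_comm _ _ _ hg0, CLU.MI_eq hg0]
    have h3 : CH g (fun w => t w.2) (fun w => (x w.1, z w.1)) ≤ Real.log n := by
      refine ch_le_log_card' hgl _ _ n ?_
      intro v
      by_cases hv : ∃ w, 0 < g w ∧ (x w.1, z w.1) = v
      · obtain ⟨w, hw, rfl⟩ := hv
        obtain ⟨F, hF, hF2⟩ := hn (c (t (pr w.1)))
        refine ⟨F, hF, ?_⟩
        intro w' hw' he
        obtain ⟨a1, a2, a3, a4⟩ := addT_pos hq hp hw'
        obtain ⟨b1, b2, b3, b4⟩ := addT_pos hq hp hw
        refine hF2 _ a2 ?_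
        rw [← a4]
        exact hx _ _ a1 b1 (Prod.ext_iff.mp he).1
      · refine ⟨∅, by simp, ?_⟩
        intro w' hw' he
        exact absurd ⟨w', hw', he⟩ hv
    have h4 : CH p t (kap lam t c) ≤
        CH g (fun w => t w.2) (fun w => (lam (pr w.1), (x w.1, z w.1))) := by
      have h5 := CH_glue_snd (p₁ := q) (p₂ := p) (Z₁ := fun w => kap lam t c (pr w))
        (Z₂ := kap lam t c) hq.nonneg hp.nonneg (addT_law hM) t (Y := kap lam t c)
        (fun w : W => (x w, z w)) (fun _ _ _ _ h => h)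
      rw [← h5]
      refine CH_mono_cond hg0 ?_
      intro w w' hw hw' h
      obtain ⟨a1, a2, a3, a4⟩ := addT_pos hq hp hw
      obtain ⟨b1, b2, b3, b4⟩ := addT_pos hq hp hw'
      simp only [Prod.mk.injEq, kap] at h ⊢
      obtain ⟨⟨h6, _⟩, h7, h8⟩ := h
      refine ⟨?_, h7, h8⟩
      rw [a3, b3, h6]
    linarith
  linarith

/-- Equal cells: from the entropy of the time given the line to the entropy given the line and a
cell. -/
theorem cell_entropy (hp : IsLaw p) (lam : Ω → Λ) (t : Ω → τ) (c : τ → γ) (n k : ℕ)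
    (hk : ∃ F : Finset γ, F.card ≤ k ∧ ∀ ω, 0 < p ω → c (t ω) ∈ F) (hn : 0 < n) (a : ℝ)
    (ha : Real.log (n * k : ℕ) - a ≤ CH p t lam) :
    Real.log n - a ≤ CH p t (kap lam t c) := by
  obtain ⟨F, hF, hF2⟩ := hk
  have h1 : CH p t lam = CH p (fun ω => c (t ω)) lam + CH p t (kap lam t c) := by
    have h2 := CH_chain hp.nonneg t (fun ω => c (t ω)) lam
    have h3 : CH p (fun ω => (t ω, c (t ω))) lam = CH p t lam := by
      refine CH_congr hp.nonneg ?_ ?_ ?_ ?_
      · intro ω ω' _ _ h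
        exact (Prod.ext_iff.mp (Prod.ext_iff.mp h).1).1
      · intro ω ω' _ _ h
        have h1 : t ω = t ω' := (Prod.ext_iff.mp h).1
        simp only [h1]
      · exact fun _ _ _ _ h => h
      · exact fun _ _ _ _ h => h
    have h4 : CH p t (fun ω => (c (t ω), lam ω)) = CH p t (kap lam t c) := by
      refine CH_congr hp.nonneg ?_ ?_ ?_ ?_ <;>
        intro ω ω' _ _ h <;> simp only [kap, Prod.mk.injEq] at h ⊢ <;> tauto
    rw [← h3, h2, h4]
  have h5 : CH p (fun ω => c (t ω)) lam ≤ Real.log k := by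
    refine ch_le_log_card' hp _ _ k fun z => ⟨F, hF, fun ω hω _ => hF2 ω hω⟩
  have hk0 : 0 < k := by
    obtain ⟨ω, hω⟩ : ∃ ω, 0 < p ω := by
      by_contra hcon
      push Not at hcon
      have := Finset.sum_nonpos fun ω (_ : ω ∈ univ) => hcon ω
      rw [hp.sum_one] at this
      linarith
    exact (Finset.card_pos.2 ⟨_, hF2 ω hω⟩).trans_le hF
  have h6 : Real.log (n * k : ℕ) = Real.log n + Real.log k := by
    rw [Nat.cast_mul, Real.log_mul (by positivity) (by positivity)]
  rw [h6, h1] at ha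
  linarith

/-- The time and the line. -/
theorem cost_one (hp : IsLaw p) (lam : Ω → Λ) (t : Ω → τ) (n : ℕ)
    (hn : ∃ F : Finset τ, F.card ≤ n ∧ ∀ ω, 0 < p ω → t ω ∈ F) (a : ℝ)
    (ha : Real.log n - a ≤ CH p t lam) : MI p lam t (fun _ => ()) ≤ a := by
  obtain ⟨F, hF, hF2⟩ := hn
  rw [mi_comm _ _ _ hp.nonneg, CLU.MI_eq hp.nonneg]
  have h1 : CH p t (fun _ => ()) ≤ Real.log n :=
    ch_le_log_card' hp _ _ n fun z => ⟨F, hF, fun ω hω _ => hF2 ω hω⟩
  have h2 : CH p t (fun ω => (lam ω, ())) = CH p t lam := by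
    refine CH_congr hp.nonneg ?_ ?_ ?_ ?_ <;>
      intro ω ω' _ _ h <;> simp only [Prod.mk.injEq] at h ⊢ <;> tauto
  rw [h2]
  linarith

/-- **The cost of one more time**, in terms of `I(l; t)` only. -/
theorem cost_add_mi (hq : IsLaw q) (hp : IsLaw p) (lam : Ω → Λ) (t : Ω → τ) (c : τ → γ)
    (pr : W → Ω) (hM : Marg q p pr) (a : ℝ) (ha : MI p lam t (fun _ => ()) ≤ a) (x : W → X)
    (z : W → Z) (hx : Det q x (fun w => c (t (pr w)))) :
    MI (addT q p lam t c pr) (fun w => lam (pr w.1)) (fun w => (x w.1, t w.2))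
      (fun w => z w.1) ≤ MI q (fun w => lam (pr w)) x z + a := by
  set g := addT q p lam t c pr with hg
  have hgl : IsLaw g := addT_isLaw hq hp hM
  have hg0 := hgl.nonneg
  have hf : Marg g q (fun w => w.1) := addT_fst hq hM
  have hs : Marg g p (fun w => w.2) := addT_snd hp hM
  rw [mi_chain hg0]
  have h1 : MI g (fun w => lam (pr w.1)) (fun w => x w.1) (fun w => z w.1) =
      MI q (fun w => lam (pr w)) x z :=
    marg_mi hf (fun w => lam (pr w)) x z
  have h2 : MI g (fun w => lam (pr w.1)) (fun w => t w.2) (fun w => (x w.1, z w.1)) ≤ a := by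
    rw [mi_comm _ _ _ hg0, CLU.MI_eq hg0]
    have h3 : CH g (fun w => t w.2) (fun w => (x w.1, z w.1)) ≤ CH p t (fun ω => c (t ω)) := by
      rw [← hs.CH t (fun ω => c (t ω))]
      refine CH_mono_cond hg0 ?_
      intro w w' hw hw' h
      obtain ⟨a1, a2, a3, a4⟩ := addT_pos hq hp hw
      obtain ⟨b1, b2, b3, b4⟩ := addT_pos hq hp hw'
      have h5 := hx _ _ a1 b1 (Prod.ext_iff.mp h).1
      show c (t w.2) = c (t w'.2)
      rw [← a4, ← b4]
      exact h5
    have h4 : CH p t (kap lam t c) ≤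
        CH g (fun w => t w.2) (fun w => (lam (pr w.1), (x w.1, z w.1))) := by
      have h5 := CH_glue_snd (p₁ := q) (p₂ := p) (Z₁ := fun w => kap lam t c (pr w))
        (Z₂ := kap lam t c) hq.nonneg hp.nonneg (addT_law hM) t (Y := kap lam t c)
        (fun w : W => (x w, z w)) (fun _ _ _ _ h => h)
      rw [← h5]
      refine CH_mono_cond hg0 ?_
      intro w w' hw hw' h
      obtain ⟨a1, a2, a3, a4⟩ := addT_pos hq hp hw
      obtain ⟨b1, b2, b3, b4⟩ := addT_pos hq hp hw'
      simp only [Prod.mk.injEq, kap] at h ⊢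
      obtain ⟨⟨h6, _⟩, h7, h8⟩ := h
      refine ⟨?_, h7, h8⟩
      rw [a3, b3, h6]
    have h5 : CH p t (fun ω => c (t ω)) - CH p t (kap lam t c) ≤ a := by
      have h6 : MI p lam t (fun ω => c (t ω)) ≤ MI p lam t (fun _ => ()) := by
        refine mi_shift hp.nonneg lam t t _ _ ?_ (fun _ _ _ _ _ => rfl)
        intro ω ω' _ _ h
        have h7 : t ω = t ω' := (Prod.ext_iff.mp h).1
        simp only [h7]
      rw [mi_comm _ _ _ hp.nonneg, CLU.MI_eq hp.nonneg] at h6
      have h8 : CH p t (fun ω => (lam ω, c (t ω))) = CH p t (kap lam t c) := rfl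
      rw [h8] at h6
      linarith
    linarith
  linarith

/-- The law of the pairs at the scale of `c`. -/
noncomputable def pairT (p : Ω → ℝ) (lam : Ω → Λ) (t : Ω → τ) (c : τ → γ) : Ω × Ω → ℝ :=
  addT p p lam t c id

theorem marg_id : Marg p p id := by
  classical
  intro ω
  rw [Finset.sum_eq_single ω]
  · simp
  · intro b _ hb
    simp [hb]
  · intro h
    exact absurd (Finset.mem_univ _) h

theorem marg_comp {Ω₁ Ω₂ Ω₃ : Type} [Fintype Ω₁] [Fintype Ω₂] [Fintype Ω₃] {q₁ : Ω₁ → ℝ}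
    {q₂ : Ω₂ → ℝ} {q₃ : Ω₃ → ℝ} {f : Ω₁ → Ω₂} {g : Ω₂ → Ω₃} (h₁ : Marg q₁ q₂ f)
    (h₂ : Marg q₂ q₃ g) : Marg q₁ q₃ (fun w => g (f w)) := by
  classical
  intro ω
  have h3 := h₁.ex (fun v => if g v = ω then 1 else 0)
  have h4 := h₂ ω
  unfold Ex at h3
  simp only [mul_ite, mul_one, mul_zero] at h3
  rw [h3]
  exact h4

/-- Pairs: the total information of the two times on the line. -/
theorem cost_pair (hp : IsLaw p) (lam : Ω → Λ) (t : Ω → τ) (c : τ → γ) (a : ℝ)
    (ha : MI p lam t (fun _ => ()) ≤ a) :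
    MI (pairT p lam t c) (fun w => lam w.1) (fun w => (t w.1, t w.2)) (fun _ => ()) ≤ 2 * a := by
  have h := cost_add_mi hp hp lam t c id marg_id a ha t (fun _ => ()) (fun ω ω' _ _ h => by
    simp only [id]
    rw [h])
  have h2 : MI p (fun w => lam (id w)) t (fun _ => ()) = MI p lam t (fun _ => ()) := rfl
  rw [h2] at h
  unfold pairT
  simp only [id] at h
  linarith

/-- Triples: a pair and a partner, at another scale, of the place `sel`. -/
theorem cost_triple {γ' : Type} (hp : IsLaw p) (lam : Ω → Λ) (t : Ω → τ) (c : τ → γ)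
    (c' : τ → γ') (a : ℝ) (ha : MI p lam t (fun _ => ()) ≤ a) (sel : Ω × Ω → Ω)
    (hsel : sel = Prod.fst ∨ sel = Prod.snd) :
    MI (addT (pairT p lam t c) p lam t c' sel) (fun w => lam (sel w.1))
      (fun w => ((t w.1.1, t w.1.2), t w.2)) (fun _ => ()) ≤ 3 * a := by
  have hq : IsLaw (pairT p lam t c) := addT_isLaw hp hp marg_id
  have hM : Marg (pairT p lam t c) p sel := by
    rcases hsel with rfl | rfl
    · exact addT_fst hp marg_id
    · exact addT_snd hp marg_id
  have h := cost_add_mi hq hp lam t c' sel hM a ha (fun w => (t w.1, t w.2)) (fun _ => ())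
    (fun w w' _ _ h => by
      have h1 := Prod.ext_iff.mp h
      rcases hsel with rfl | rfl
      · exact congrArg c' h1.1
      · exact congrArg c' h1.2)
  have h2 : MI (pairT p lam t c) (fun w => lam (sel w)) (fun w => (t w.1, t w.2))
      (fun _ => ()) ≤ 2 * a := by
    refine le_trans (le_of_eq ?_) (cost_pair hp lam t c a ha)
    rcases hsel with rfl | rfl
    · rfl
    · have h3 : ∀ w, 0 < pairT p lam t c w → lam w.1 = lam w.2 := fun w hw =>
        (addT_pos hp hp hw).2.2.1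
      have h4 : ∀ w w', 0 < pairT p lam t c w → 0 < pairT p lam t c w' →
          (lam w.2 = lam w'.2 ↔ lam w.1 = lam w'.1) := fun w w' hw hw' => by
        rw [h3 w hw, h3 w' hw']
      rw [CLU.MI_eq hq.nonneg, CLU.MI_eq hq.nonneg]
      congr 1
      · refine CH_congr hq.nonneg ?_ ?_ (fun _ _ _ _ h => h) (fun _ _ _ _ h => h) <;>
          intro w w' hw hw' h
        · exact (h4 w w' hw hw').1 (Prod.ext_iff.mp h).1
        · exact (h4 w w' hw hw').2 (Prod.ext_iff.mp h).1
      · refine CH_congr hq.nonneg ?_ ?_ (fun _ _ _ _ h => h) (fun _ _ _ _ h => h) <;>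
          intro w w' hw hw' h
        · exact (h4 w w' hw hw').1 (Prod.ext_iff.mp h).1
        · exact (h4 w w' hw hw').2 (Prod.ext_iff.mp h).1
  linarith

end Times

end Pool.OC

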